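import Pool.Agent.J4H27.LV.Big
import Pool.Agent.J4H27.ML.Cnt

/-!
# Integral points on varieties of log general type which are birational to an abelian variety
-/

set_option autoImplicit false

open MvPolynomial NumberField Pool.Agent.TH954.X

namespace Pool.Agent.Results.MP_26d9ad_nt.BirationallyAbelian

section

variable {K : Type} [Field K] {n β : ℕ}

/-- the points over `F` of the product `B` of the abelian varieties `A b` -/
abbrev Pts (A : Fin β → AbV K n) (F : Type) [Field F] [Algebra K F] : Type := ∀ b, (A b).Pt F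

/-- the coordinates of a point of `B` -/
def crds {A : Fin β → AbV K n} {F : Type} [Field F] [Algebra K F] (P : Pts A F) :
    Fin β → Fin n → F := fun b => (P b).1

/-- the coordinates of the point `(t, P)` of `ℙ × B`, with `ℙ` the projective space of dimension
`n - 1` -/
def full {A : Fin β → AbV K n} {F : Type} [Field F] [Algebra K F] (t : Fin n → F)
    (P : Pts A F) : Option (Fin β) → Fin n → F := fun o => Option.elim o t (crds P)

/-- the equations of a closed subscheme of `ℙ × B`: finitely many multihomogeneous forms `f i`, of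
multidegrees `δ i` -/
structure Eqs (K : Type) [Field K] (n β : ℕ) where
  s : ℕ
  f : Fin s → MvPolynomial (Option (Fin β) × Fin n) K
  δ : Fin s → Option (Fin β) → ℕ
  hom : ∀ i, MH (δ i) (f i)

/-- the point `(t, P)` of `ℙ × B` lies on the closed subset `X` -/
def On {A : Fin β → AbV K n} (X : Eqs K n β) {F : Type} [Field F] [Algebra K F]
    (t : Fin n → F) (P : Pts A F) : Prop := ∀ i, ev (X.f i) (full t P) = 0

/-- the sum of the numbers `dim` of the `A b`; it is at most the dimension of `B` -/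
def dimB (A : Fin β → AbV K n) : ℕ := ∑ b, (A b).dim

/-- the transcendence degree over `K` of the field generated by the coordinates of a point of `B` -/
noncomputable def trdegPt {A : Fin β → AbV K n} {F : Type} [Field F] [Algebra K F] (P : Pts A F) :
    Cardinal :=
  Algebra.trdeg K (IntermediateField.adjoin K
    (Set.range (fun p : Fin β × Fin n => crds P p.1 p.2)))

/-- the image in `B` of the closed subset `X ∩ W` has codimension at least `c` -/
def ImageCodim (A : Fin β → AbV K n) (X W : Eqs K n β) (c : ℕ) : Prop :=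
  ∀ (F : Type) [Field F] [Algebra K F] (t : Fin n → F) (P : Pts A F), t ≠ 0 → On X t P →
    On W t P → trdegPt P + (c : Cardinal) ≤ (dimB A : Cardinal)

/-- the subgroup `G` of `B(F)` is closed: it is defined by multihomogeneous equations over `F` -/
def IsClosedSubgroup (A : Fin β → AbV K n) (F : Type) [Field F] [Algebra K F]
    (G : AddSubgroup (Pts A F)) : Prop :=
  ∃ Φs : Set (MvPolynomial (Fin β × Fin n) F), (∀ Φ ∈ Φs, ∃ δ, MH δ Φ) ∧
    ∀ P, P ∈ G ↔ ∀ Φ ∈ Φs, ev Φ (crds P) = 0

/-- The abelian varieties `A b` are geometrically simple and pairwise not isogenous over the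
algebraically closed extension fields `F` of `K`, in the following form: for all distinct indices
`e 0, ..., e (γ - 1)`, a closed subgroup of the group of points over `F` of the product of the
`A (e j)` whose projection to each of the factors is infinite is the whole group. -/
def SimpleNonisogenous (A : Fin β → AbV K n) : Prop :=
  ∀ (F : Type) [Field F] [Algebra K F] [IsAlgClosed F] (γ : ℕ) (e : Fin γ ↪ Fin β)
    (G : AddSubgroup (Pts (fun j => A (e j)) F)), IsClosedSubgroup (fun j => A (e j)) F G →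
    (∀ j, {Q : (A (e j)).Pt F | ∃ P ∈ G, P j = Q}.Infinite) → G = ⊤

/-- The abelian variety `A` is geometrically simple: over all algebraically closed extension fields
`F` of `K`, an infinite subgroup of `A(F)` defined by homogeneous equations over `F` is the whole
group `A(F)`. -/
def GeometricallySimple (A : AbV K n) : Prop :=
  ∀ (F : Type) [Field F] [Algebra K F] [IsAlgClosed F] (G : AddSubgroup (A.Pt F)),
    (∃ Φs : Set (MvPolynomial (Fin n) F), (∀ Φ ∈ Φs, ∃ d, Φ.IsHomogeneous d) ∧
      ∀ P, P ∈ G ↔ ∀ Φ ∈ Φs, aeval P.1 Φ = 0) → (G : Set (A.Pt F)).Infinite → G = ⊤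

/-- the local height of `x` with respect to the subscheme `W`: minus the logarithm of
`max_i |f i (x)|_v / ∏_j |x_j|_v ^ (δ i j)`, with `|x_j|_v` the maximum of the absolute values of the
coordinates of `x_j` -/
noncomputable def lambda (W : Eqs K n β) (x : Option (Fin β) → Fin n → K)
    (v : AbsoluteValue K ℝ) : ℝ :=
  -Real.log (⨆ i, v (ev (W.f i) x) / ∏ j, (⨆ c, v (x j c)) ^ W.δ i j)

/-- The divisor `W + D` of `X` is big: for some `k > 0` and `e b > 0` there are forms `Θ i j`, of
multidegree `k` times that of `W.f i * D.f j` minus `e`, such that `Θ i j / (W.f i * D.f j) ^ k` does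
not depend on `i` and `j` on `X`, and the image in `B` of the set of common zeros of the `Θ i j` on `X`
has codimension at least one. In other words, the divisor `k (W + D)` is linearly equivalent to the sum
of the pull-back of the class of multidegree `e` of `B` and of an effective divisor with image different
from `B`; for varieties `X` birational to `B`, this is the definition of big divisors. -/
def IsBig (A : Fin β → AbV K n) (X W D : Eqs K n β) : Prop :=
  ∃ (k : ℕ) (e : Fin β → ℕ) (Θ : Fin W.s → Fin D.s → MvPolynomial (Option (Fin β) × Fin n) K)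
    (δ : Fin W.s → Fin D.s → Option (Fin β) → ℕ), 0 < k ∧ (∀ b, 0 < e b) ∧
    (∀ i j, MH (δ i j) (Θ i j) ∧ ∀ o, δ i j o + Option.elim o 0 e = k * (W.δ i o + D.δ j o)) ∧
    ∀ (F : Type) [Field F] [Algebra K F] (t : Fin n → F) (P : Pts A F), t ≠ 0 → On X t P →
      (∀ i j i' j', ev (Θ i j) (full t P) * (ev (W.f i') (full t P) * ev (D.f j') (full t P)) ^ k =
        ev (Θ i' j') (full t P) * (ev (W.f i) (full t P) * ev (D.f j) (full t P)) ^ k) ∧
      ((∀ i j, ev (Θ i j) (full t P) = 0) →
        trdegPt P + ((1 : ℕ) : Cardinal) ≤ (dimB A : Cardinal))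

variable [NumberField K]

/-- the sum of the logarithmic heights of the components of a point of `B` -/
noncomputable def height {A : Fin β → AbV K n} (P : Pts A K) : ℝ :=
  ∑ b, Height.logHeight (crds P b)

/-- the points `P` of `B(K)` such that there is an integral point `x = (t, P)` of `X \ D` over `P`:
a rational point of `X`, not in `D`, whose local height with respect to `D` is at most `c v` for all
finite places `v` not in `S` -/
def IntegralPts (A : Fin β → AbV K n) (X D : Eqs K n β) (S : Finset (FinitePlace K))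
    (c : FinitePlace K → ℝ) : Set (Pts A K) :=
  {P | ∃ t : Fin n → K, t ≠ 0 ∧ On X t P ∧ ¬ On D t P ∧ ∀ v ∉ S, lambda D (full t P) v.val ≤ c v}

end

section

variable {K : Type} [Field K] {n : ℕ}

lemma simple_one (A : AbV K n) (hA : GeometricallySimple A) :
    SimpleNonisogenous (fun _ : Fin 1 => A) := by
  intro F _ _ _ γ e G hG hinf
  have hγ : γ ≤ 1 := by
    have := Fintype.card_le_of_embedding e
    simpa using this
  rcases Nat.le_one_iff_eq_zero_or_eq_one.1 hγ with rfl | rfl
  · refine eq_top_iff.2 (fun P _ => ?_)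
    have h0 : P = 0 := funext fun j => j.elim0
    rw [h0]
    exact G.zero_mem
  · let f : A.Pt F →+ Pts (fun _ : Fin 1 => A) F := AddMonoidHom.mk' (fun Q _ => Q) (fun _ _ => rfl)
    have hf : ∀ P : Pts (fun _ : Fin 1 => A) F, f (P 0) = P := by
      intro P
      funext j
      rw [Subsingleton.elim j 0]
      rfl
    have h1 : G.comap f = ⊤ := by
      refine hA F (G.comap f) ?_ ?_
      · obtain ⟨Φs, h1, h2⟩ := hG
        refine ⟨{Ψ | ∃ Φ ∈ Φs, Ψ = rename Prod.snd Φ}, ?_, fun P => ?_⟩
        · rintro _ ⟨Φ, hΦ, rfl⟩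
          obtain ⟨δ, hδ⟩ := h1 Φ hΦ
          refine ⟨δ 0, IsHomogeneous.rename_isHomogeneous ?_⟩
          intro m hm
          have h3 := hδ m (mem_support_iff.2 hm) 0
          rw [← h3, Finsupp.weight_apply, Finsupp.sum_fintype _ _ (fun _ => by simp),
            Fintype.sum_prod_type, Fin.sum_univ_one]
          refine Finset.sum_congr rfl (fun c _ => ?_)
          simp
        · have h3 : ∀ Φ : MvPolynomial (Fin 1 × Fin n) F,
              aeval P.1 (rename Prod.snd Φ) = ev Φ (crds (A := fun _ : Fin 1 => A) (f P)) := by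
            intro Φ
            rw [aeval_rename]
            rfl
          rw [AddSubgroup.mem_comap]
          refine (h2 (f P)).trans ⟨?_, ?_⟩
          · rintro h4 _ ⟨Φ, hΦ, rfl⟩
            exact (h3 Φ).trans (h4 Φ hΦ)
          · intro h4 Φ hΦ
            exact (h3 Φ).symm.trans (h4 _ ⟨Φ, hΦ, rfl⟩)
      · refine (hinf 0).mono ?_
        rintro _ ⟨P, hP, rfl⟩
        change f (P 0) ∈ G
        rw [hf]
        exact hP
    refine eq_top_iff.2 (fun P _ => ?_)
    have h2 : P 0 ∈ G.comap f := by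
      rw [h1]
      trivial
    rw [AddSubgroup.mem_comap, hf] at h2
    exact h2

end

section

variable {K : Type} [Field K] [NumberField K] {n β : ℕ}

lemma cov_int (A : Fin β → AbV K n) (hdim : 0 < dimB A) (Γ : AddSubgroup (Pts A K)) (hFG : Γ.FG)
    (X W D : Eqs K n β) (hcW : ImageCodim A X W 2) (hcD : ImageCodim A X D 1)
    (hbig : IsBig A X W D) (S : Finset (FinitePlace K)) (c : FinitePlace K → ℝ)
    (hc : {v | c v ≠ 0}.Finite) :
    ∃ N d : ℕ, ∀ T : ℝ, Pool.Agent.J4H27.AB.Cov A N d
      {P | P ∈ {P : Pts A K | P ∈ Γ ∧ P ∈ IntegralPts A X D S c} ∧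
        T / 2 ≤ height P ∧ height P ≤ T} := by
  obtain ⟨k, e, Θ, δ, hk, he, h1, h2⟩ := hbig
  obtain ⟨N, d, hN⟩ := Pool.Agent.J4H27.LV.itg_dyadic A hdim Γ hFG X.f
    (fun i => ⟨X.δ i, X.hom i⟩) W.f W.δ W.hom D.f D.δ D.hom
    (fun F _ _ t P ht h1 h2 => hcW F t P ht h1 h2)
    (fun F _ _ t P ht h1 h2 => hcD F t P ht h1 h2) k hk e he Θ δ (fun i j => (h1 i j).1)
    (fun i j o => (h1 i j).2 o) (fun t P ht h3 => (h2 K t P ht h3).1)
    (fun F _ _ t P ht h3 h4 => (h2 F t P ht h3).2 h4) S c hc
  refine ⟨N, d, fun T => (hN T).sub ?_⟩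
  rintro P ⟨⟨hP, t, ht, h3, h4, h5⟩, h6, h7⟩
  refine ⟨⟨hP, t, ht, h3, ?_, h5⟩, h6, h7⟩
  by_contra h8
  push Not at h8
  exact h4 h8

end

/-- Let `B = ∏ A b` be a product of abelian varieties over the number field `K`, of positive
dimension, `Γ` a finitely generated subgroup of `B(K)` (for instance `B(K)`, by the theorem of
Mordell and Weil), `X` a closed subset of `ℙ × B`, `W` and `D` closed subschemes of `X` whose images
in `B` have codimension at least two and at least one, such that `W + D` is big, and `S` a finite set of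
places. Let `Y` be the set of the points `P ∈ Γ` such that there is an `S`-integral point of `X \ D` over
`P`. (If `X` is smooth and birational to `B`, `W` the canonical divisor of `X`, whose support consists of
exceptional divisors, and `D` is an effective divisor with normal crossings and without multiple
components, the complement `X \ D` is of log general type if and only if `W + D` is big.)

If the `A b` are geometrically simple and pairwise not isogenous, the points of `Y` of height at most
`T` lie in at most `C (log T) ^ a` fibres of the projections of `B` to the factors `A b`. If `B = A` is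
a geometrically simple abelian variety, there are at most `C (log T) ^ a` points of `Y` of height at
most `T`. -/
theorem result :
    (∀ (K : Type) [Field K] [NumberField K] (n β : ℕ) (A : Fin β → AbV K n), 0 < dimB A →
      SimpleNonisogenous A → ∀ Γ : AddSubgroup (Pts A K), Γ.FG →
      ∀ X W D : Eqs K n β, ImageCodim A X W 2 → ImageCodim A X D 1 → IsBig A X W D →
      ∀ (S : Finset (FinitePlace K)) (c : FinitePlace K → ℝ), {v | c v ≠ 0}.Finite →
        ∃ (C : ℝ) (a : ℕ), ∀ T : ℝ, 2 ≤ T →
          ∃ s : Finset ((b : Fin β) × (A b).Pt K), (s.card : ℝ) ≤ C * Real.log T ^ a ∧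
            ∀ P ∈ Γ, P ∈ IntegralPts A X D S c → height P ≤ T → ∃ q ∈ s, P q.1 = q.2) ∧
    ∀ (K : Type) [Field K] [NumberField K] (n : ℕ) (A : AbV K n), 0 < A.dim →
      GeometricallySimple A → ∀ Γ : AddSubgroup (Pts (fun _ : Fin 1 => A) K), Γ.FG →
      ∀ X W D : Eqs K n 1, ImageCodim (fun _ : Fin 1 => A) X W 2 →
      ImageCodim (fun _ : Fin 1 => A) X D 1 → IsBig (fun _ : Fin 1 => A) X W D →
      ∀ (S : Finset (FinitePlace K)) (c : FinitePlace K → ℝ), {v | c v ≠ 0}.Finite →
        ∃ (C : ℝ) (a : ℕ), ∀ T : ℝ, 2 ≤ T →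
          {P | P ∈ Γ ∧ P ∈ IntegralPts (fun _ : Fin 1 => A) X D S c ∧ height P ≤ T}.Finite ∧
          (({P | P ∈ Γ ∧ P ∈ IntegralPts (fun _ : Fin 1 => A) X D S c ∧
            height P ≤ T}.ncard : ℕ) : ℝ) ≤ C * Real.log T ^ a := by
  classical
  have main : ∀ (K : Type) [Field K] [NumberField K] (n β : ℕ) (A : Fin β → AbV K n),
      0 < dimB A → SimpleNonisogenous A → ∀ Γ : AddSubgroup (Pts A K), Γ.FG →
      ∀ X W D : Eqs K n β, ImageCodim A X W 2 → ImageCodim A X D 1 → IsBig A X W D →
      ∀ (S : Finset (FinitePlace K)) (c : FinitePlace K → ℝ), {v | c v ≠ 0}.Finite →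
        ∃ (C : ℝ) (a : ℕ), ∀ T : ℝ, 2 ≤ T →
          ∃ s : Finset ((b : Fin β) × (A b).Pt K), (s.card : ℝ) ≤ C * Real.log T ^ a ∧
            ∀ P ∈ Γ, P ∈ IntegralPts A X D S c → height P ≤ T → ∃ q ∈ s, P q.1 = q.2 := by
    intro K _ _ n β A hdim hA Γ hFG X W D hcW hcD hbig S c hc
    obtain ⟨N, d, hN⟩ := cov_int A hdim Γ hFG X W D hcW hcD hbig S c hc
    obtain ⟨c1, c2, T0, hc1, hT0, hcnt⟩ := Pool.Agent.TH954.Z.cnt K n β A Γ hFG
    have hfin : {P : Pts A K | P ∈ Γ ∧ height P ≤ T0}.Finite := (hcnt T0 le_rfl).1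
    have hfin1 : {P : Pts A K | P ∈ {P : Pts A K | P ∈ Γ ∧ P ∈ IntegralPts A X D S c} ∧
        height P ≤ 1}.Finite :=
      hfin.subset (fun P hP => ⟨hP.1.1, hP.2.trans hT0⟩)
    obtain ⟨N0, hN0⟩ := Pool.Agent.J4H27.AB.cov_finite hdim hfin1
    obtain ⟨C, d', hC⟩ := Pool.Agent.J4H27.AB.log_cov hN0 hN
    obtain ⟨a, ha⟩ := Pool.Agent.J4H27.ML.lgp (A := A) hA Γ hFG d'
    have hl2 : 0 < Real.log 2 := Real.log_pos (by norm_num)
    refine ⟨C * (3 / Real.log 2 + 1) ^ a, a + 1, fun T hT => ?_⟩
    obtain ⟨M, hM1, H, hH1, hH2⟩ := hC T hT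
    have h1 : Pool.Agent.J4H27.ML.FC A (M * (Pool.Agent.J4H27.ML.xT T) ^ a)
        {P : Pts A K | P ∈ Γ ∧ P ∈ IntegralPts A X D S c ∧ height P ≤ T} := by
      have h2 := Pool.Agent.J4H27.ML.FC.biUnion (A := A) (Finset.univ : Finset (Fin M))
        (fun i _ => ha T hT (H i) (hH1 i))
      rw [Finset.card_univ, Fintype.card_fin] at h2
      refine h2.mono ?_ (le_refl _)
      rintro P ⟨hP1, hP2, hP3⟩
      obtain ⟨i, hi⟩ := Set.mem_iUnion.1 (hH2 ⟨⟨hP1, hP2⟩, hP3⟩)
      exact Set.mem_biUnion (Finset.mem_coe.2 (Finset.mem_univ i)) ⟨⟨hP1, hP3⟩, hi⟩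
    obtain ⟨s, hs1, hs2⟩ := h1
    refine ⟨s, ?_, fun P h2 h3 h4 => hs2 P ⟨h2, h3, h4⟩⟩
    have hlT : Real.log 2 ≤ Real.log T := Real.log_le_log (by norm_num) hT
    have hlT0 : 0 < Real.log T := hl2.trans_le hlT
    have h2 : ((Pool.Agent.J4H27.ML.xT T : ℕ) : ℝ) ≤ (3 / Real.log 2 + 1) * Real.log T := by
      unfold Pool.Agent.J4H27.ML.xT
      push_cast
      have h3 := Nat.ceil_lt_add_one hlT0.le
      have h4 : 3 ≤ 3 / Real.log 2 * Real.log T := by
        rw [div_mul_eq_mul_div, le_div_iff₀ hl2]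
        linarith
      linarith
    have h3 : (s.card : ℝ) ≤ M * (Pool.Agent.J4H27.ML.xT T : ℝ) ^ a := by
      exact_mod_cast hs1
    have h4 : ((Pool.Agent.J4H27.ML.xT T : ℕ) : ℝ) ^ a ≤
        ((3 / Real.log 2 + 1) * Real.log T) ^ a :=
      pow_le_pow_left₀ (Nat.cast_nonneg _) h2 a
    refine h3.trans ?_
    have h5 : (M : ℝ) * (Pool.Agent.J4H27.ML.xT T : ℝ) ^ a ≤
        (C * Real.log T) * ((3 / Real.log 2 + 1) * Real.log T) ^ a :=
      mul_le_mul hM1 h4 (by positivity) ((Nat.cast_nonneg _).trans hM1)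
    refine h5.trans (le_of_eq ?_)
    rw [mul_pow]
    ring
  refine ⟨main, ?_⟩
  · intro K _ _ n A hdim hA Γ hFG X W D hcW hcD hbig S c hc
    obtain ⟨C, a, hC⟩ := main K n 1 (fun _ => A) (by simpa [dimB] using hdim)
      (simple_one A hA) Γ hFG X W D hcW hcD hbig S c hc
    refine ⟨C, a, fun T hT => ?_⟩
    obtain ⟨s, hs1, hs2⟩ := hC T hT
    let g : Pts (fun _ : Fin 1 => A) K → ((_ : Fin 1) × A.Pt K) := fun P => ⟨0, P 0⟩
    have hg : Function.Injective g := by
      intro P Q h
      have h1 : P 0 = Q 0 := by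
        have h2 := congrArg (fun c : (_ : Fin 1) × A.Pt K => c.2) h
        exact h2
      funext j
      rw [Subsingleton.elim j 0]
      exact h1
    have hsub : {P | P ∈ Γ ∧ P ∈ IntegralPts (fun _ : Fin 1 => A) X D S c ∧ height P ≤ T} ⊆
        g ⁻¹' (s : Set ((_ : Fin 1) × A.Pt K)) := by
      rintro P ⟨h1, h2, h3⟩
      obtain ⟨c, hc1, hc2⟩ := hs2 P h1 h2 h3
      have h4 : g P = c := by
        obtain ⟨i, Q⟩ := c
        have hi : i = 0 := Subsingleton.elim _ _
        subst hi
        exact congrArg (fun Q => (⟨0, Q⟩ : (_ : Fin 1) × A.Pt K)) hc2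
      change g P ∈ (s : Set _)
      rw [h4]
      exact hc1
    have hfin : (g ⁻¹' (s : Set ((_ : Fin 1) × A.Pt K))).Finite :=
      s.finite_toSet.preimage hg.injOn
    refine ⟨hfin.subset hsub, le_trans ?_ hs1⟩
    have h1 : {P | P ∈ Γ ∧ P ∈ IntegralPts (fun _ : Fin 1 => A) X D S c ∧
        height P ≤ T}.ncard ≤ (g ⁻¹' (s : Set ((_ : Fin 1) × A.Pt K))).ncard :=
      Set.ncard_le_ncard hsub hfin
    have h2 : (g ⁻¹' (s : Set ((_ : Fin 1) × A.Pt K))).ncard ≤
        (s : Set ((_ : Fin 1) × A.Pt K)).ncard :=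
      Set.ncard_le_ncard_of_injOn g (fun _ h => h) hg.injOn s.finite_toSet
    rw [Set.ncard_coe_finset] at h2
    exact_mod_cast h1.trans h2

end Pool.Agent.Results.MP_26d9ad_nt.BirationallyAbelian
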