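import Pool.Agent.J4H27.MV.DyM

/-!
# Vojta's inequality on `B × ℙ ^ (r - 1)`, `B` a product of abelian varieties, for divisors whose
components are hyperplanes in the fibres: Schmidt's subspace theorem with hyperplanes which move with
a point of an abelian variety
-/

set_option autoImplicit false

open MvPolynomial NumberField Pool.Agent.TH954.X

namespace Pool.Agent.Results.MP_17a322_nt.MovingOverAbelian

section

variable {K : Type} [Field K] {n β r q : ℕ}

/-- the points over `F` of the product `B` of the abelian varieties `A b` -/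
abbrev Pts (A : Fin β → AbV K n) (F : Type) [Field F] [Algebra K F] : Type := ∀ b, (A b).Pt F

/-- the coordinates of a point of `B` -/
def crds {A : Fin β → AbV K n} {F : Type} [Field F] [Algebra K F] (P : Pts A F) :
    Fin β → Fin n → F := fun b => (P b).1

/-- the sum of the numbers `dim` of the `A b`; it is at most the dimension of `B`, and equal to it if
`DimensionLe A` holds -/
def dimB (A : Fin β → AbV K n) : ℕ := ∑ b, (A b).dim

/-- the dimension of `B` is at most (hence equal to) `dimB A`: the transcendence degree over `K` of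
the field generated by the coordinates of a point of `B` is at most `dimB A` -/
def DimensionLe (A : Fin β → AbV K n) : Prop :=
  ∀ (F : Type) [Field F] [Algebra K F] (P : Pts A F),
    Algebra.trdeg K (IntermediateField.adjoin K
      (Set.range (fun p : Fin β × Fin n => crds P p.1 p.2))) ≤ (dimB A : Cardinal)

/-- The divisor `D` of `B × ℙ ^ (r - 1)` with the components `D j : ∑ i, a j i (P) t i = 0`, for
`j < q`: the `a j i` are multihomogeneous forms of the multidegree `δ j` in the coordinates of `P`. -/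
structure Hyperplanes (K : Type) [Field K] (n β r q : ℕ) where
  a : Fin q → Fin r → MvPolynomial (Fin β × Fin n) K
  δ : Fin q → Fin β → ℕ
  hom : ∀ j i, MH (δ j) (a j i)

/-- The hyperplanes in the generic fibre of `B × ℙ ^ (r - 1)` over `B` are in general position: each
of the determinants of the coefficients of `r` different ones among them is nonzero at some point of
`B`. -/
def GeneralPosition (A : Fin β → AbV K n) (D : Hyperplanes K n β r q) : Prop :=
  ∀ e : Fin r ↪ Fin q, ∃ (F : Type) (_ : Field F) (_ : Algebra K F) (P : Pts A F),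
    (Matrix.of fun k i : Fin r => ev (D.a (e k) i) (crds P)).det ≠ 0

/-- the value `∑ i, a j i (P) t i` -/
noncomputable def value {A : Fin β → AbV K n} (D : Hyperplanes K n β r q) (P : Pts A K)
    (t : Fin r → K) (j : Fin q) : K := ∑ i, ev (D.a j i) (crds P) * t i

/-- the local height of `(P, t)` with respect to `D j`: minus the logarithm of
`|∑ i, a j i (P) t i|_v / (|t|_v * ∏ b, |P b|_v ^ (δ j b))`, with `|t|_v`, `|P b|_v` the maxima of the
absolute values of the coordinates -/
noncomputable def lambda {A : Fin β → AbV K n} (D : Hyperplanes K n β r q) (P : Pts A K)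
    (t : Fin r → K) (j : Fin q) (v : AbsoluteValue K ℝ) : ℝ :=
  -Real.log (v (value D P t j) /
    ((⨆ c, v (t c)) * ∏ b, (⨆ c, v (crds P b c)) ^ D.δ j b))

/-- The set `E` of pairs `(P, t)` is contained in a union of `N` moving hyperplanes
`∑ c, Φ l c (P) t c = 0`: the `Φ l c` are multihomogeneous forms over `K` of a multidegree `τ l`, at
most `d` in each of the factors of `B`, and for each `l` not all of the `Φ l c` vanish on `B`. -/
def OnMovingHyperplanes (A : Fin β → AbV K n) (N d : ℕ)
    (E : Set (Pts A K × (Fin r → K))) : Prop :=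
  ∃ (Φ : Fin N → Fin r → MvPolynomial (Fin β × Fin n) K) (τ : Fin N → Fin β → ℕ),
    (∀ l, (∀ c, MH (τ l) (Φ l c)) ∧ (∀ b, τ l b ≤ d) ∧
      ∃ (c : Fin r) (F : Type) (_ : Field F) (_ : Algebra K F) (P : Pts A F),
        ev (Φ l c) (crds P) ≠ 0) ∧
    ∀ x ∈ E, ∃ l, ∑ c, x.2 c * ev (Φ l c) (crds x.1) = 0

variable [NumberField K]

/-- the proximity function `m_{S, D}`: the sum of the local heights with respect to all `D j` over
the places in `S = S1 ∪ S2` -/
noncomputable def proximity {A : Fin β → AbV K n} (D : Hyperplanes K n β r q)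
    (S1 : Finset (InfinitePlace K)) (S2 : Finset (FinitePlace K)) (P : Pts A K)
    (t : Fin r → K) : ℝ :=
  ∑ w ∈ S1, (w.mult : ℝ) * ∑ j, lambda D P t j w.val + ∑ v ∈ S2, ∑ j, lambda D P t j v.val

/-- the sum `h(P) + h(t)` of the logarithmic heights of the components of `P` and of `t` -/
noncomputable def height {A : Fin β → AbV K n} (x : Pts A K × (Fin r → K)) : ℝ :=
  ∑ b, Height.logHeight (crds x.1 b) + Height.logHeight x.2

/-- The exceptional points `(P, t)` of `B × ℙ ^ (r - 1)`, with `P` in `Γ`: they lie on a component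
of `D` or violate the inequality `m_{S, D} ≤ r h(t) + ε (h(P) + h(t))`, and `- r h(t)` is the height
with respect to the canonical divisor. -/
def Exceptions (A : Fin β → AbV K n) (Γ : AddSubgroup (Pts A K)) (D : Hyperplanes K n β r q)
    (S1 : Finset (InfinitePlace K)) (S2 : Finset (FinitePlace K)) (ε : ℝ) :
    Set (Pts A K × (Fin r → K)) :=
  {x | x.1 ∈ Γ ∧ x.2 ≠ 0 ∧ ((∃ j, value D x.1 x.2 j = 0) ∨
    r * Height.logHeight x.2 + ε * height x < proximity D S1 S2 x.1 x.2)}

end

/-- Let `B = ∏ A b` be a product of abelian varieties over the number field `K`, of positive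
dimension, `Γ` a finitely generated subgroup of `B(K)` (for instance `B(K)`, by the theorem of
Mordell and Weil), `D` a divisor of `B × ℙ ^ (r - 1)` whose components
`D j : ∑ i, a j i (P) t i = 0`, for `j < q`, with `q ≥ r ≥ 1`, are hyperplanes in the fibres over `B`,
in general position in the generic fibre, `S` a finite set of places and `ε > 0`. Consider the
rational points `(P, t)` of `B × ℙ ^ (r - 1)` with `P ∈ Γ` which lie on `D` or violate Vojta's
inequality `m_{S, D}(P, t) ≤ r h(t) + ε (h(P) + h(t))`. Then, for some `N` and `d` and all `T`, those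
with `T ≤ h(P) + h(t) ≤ 2 T` lie on `N` moving hyperplanes `∑ c, Φ c (P) t c = 0` with forms `Φ c` of
multidegree at most `d` which do not all vanish on `B`; hence those with `h(P) + h(t) ≤ T` lie on at
most `C log T` such moving hyperplanes. There is no condition on the size of the heights of the
hyperplanes over `P`, that is, on `h(P)`, compared with `h(t)`. -/
theorem result :
    ∀ (K : Type) [Field K] [NumberField K] (n β : ℕ) (A : Fin β → AbV K n), 0 < dimB A →
      DimensionLe A → ∀ Γ : AddSubgroup (Pts A K), Γ.FG →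
      ∀ r q : ℕ, 0 < r → r ≤ q → ∀ D : Hyperplanes K n β r q, GeneralPosition A D →
      ∀ (S1 : Finset (InfinitePlace K)) (S2 : Finset (FinitePlace K)) (ε : ℝ), 0 < ε →
        (∃ N d : ℕ, ∀ T : ℝ, OnMovingHyperplanes A N d
          {x | x ∈ Exceptions A Γ D S1 S2 ε ∧ T ≤ height x ∧ height x ≤ 2 * T}) ∧
        ∃ (C : ℝ) (d : ℕ), ∀ T : ℝ, 2 ≤ T → ∃ N : ℕ, (N : ℝ) ≤ C * Real.log T ∧
          OnMovingHyperplanes A N d {x | x ∈ Exceptions A Γ D S1 S2 ε ∧ height x ≤ T} := by
  intro K _ _ n β A hdim hTop Γ hFG r q hr hq D hD S1 S2 ε hε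
  let D' : Pool.Agent.J4H27.MV.Mvh K n β r q := ⟨D.a, D.δ, D.hom⟩
  have hgp : ∀ e : Fin r ↪ Fin q, Pool.Agent.TH954.Z.NZ A (D'.dt e) := by
    intro e
    obtain ⟨F, iF, iA, P, hP⟩ := hD e
    refine ⟨F, iF, iA, P, ?_⟩
    let φ : MvPolynomial (Fin β × Fin n) K →ₐ[K] F :=
      aeval (fun p : Fin β × Fin n => crds P p.1 p.2)
    have h2 : ev (D'.dt e) (Pool.Agent.TH954.Z.vc P) = (φ.mapMatrix (D'.M e)).det := by
      rw [← AlgHom.map_det]
      rfl
    rw [h2]
    exact hP
  have hcov : ∀ (N d : ℕ) (S : Set (Pts A K × (Fin r → K))),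
      Pool.Agent.J4H27.MV.CovM A N d S → OnMovingHyperplanes A N d S := by
    rintro N d S ⟨H, h1, h2⟩
    choose Φ τ h3 h4 h5 h6 using h1
    refine ⟨Φ, τ, fun i => ⟨h4 i, h3 i, h5 i⟩, fun x hx => ?_⟩
    obtain ⟨i, hi⟩ := Set.mem_iUnion.1 (h2 hx)
    exact ⟨i, h6 i x hi⟩
  obtain ⟨N, d, hN⟩ := Pool.Agent.J4H27.MV.dyadicM A hdim hTop Γ hFG D' hr hq hgp S1 S2 ε hε
  have hdy : ∀ T : ℝ, Pool.Agent.J4H27.MV.CovM A N d
      {x | x ∈ Exceptions A Γ D S1 S2 ε ∧ T / 2 ≤ height x ∧ height x ≤ T} := fun T =>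
    (hN T).sub (fun x hx => hx)
  obtain ⟨c1, c2, T0, hc1, hT0, hcnt⟩ := Pool.Agent.TH954.Z.cnt K n β A Γ hFG
  have hfin : {P : Pts A K | P ∈ Γ ∧ Pool.Agent.TH954.Z.ht P ≤ T0}.Finite := (hcnt T0 le_rfl).1
  obtain ⟨N0, hN0⟩ := Pool.Agent.J4H27.AB.cov_finite hdim hfin
  have h0 : Pool.Agent.J4H27.MV.CovM A N0 1
      {x : Pts A K × (Fin r → K) | x ∈ Exceptions A Γ D S1 S2 ε ∧ height x ≤ 1} := by
    refine (Pool.Agent.J4H27.MV.covM_of_cov hr hN0).sub ?_
    rintro x ⟨hx1, hx2⟩
    refine ⟨hx1.1, ?_⟩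
    have h3 : 0 ≤ Height.logHeight x.2 := Height.logHeight_nonneg _
    have h4 : Pool.Agent.TH954.Z.ht x.1 + Height.logHeight x.2 ≤ 1 := hx2
    linarith
  refine ⟨⟨N, d, fun T => hcov N d _ ((hdy (2 * T)).sub ?_)⟩, ?_⟩
  · rintro x ⟨h1, h2, h3⟩
    exact ⟨h1, by linarith, h3⟩
  · obtain ⟨C, d', hC⟩ := Pool.Agent.J4H27.MV.log_covM h0 hdy
    refine ⟨C, d', fun T hT => ?_⟩
    obtain ⟨M, hM1, hM2⟩ := hC T hT
    exact ⟨M, hM1, hcov M d' _ hM2⟩

end Pool.Agent.Results.MP_17a322_nt.MovingOverAbelian
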