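import Pool.Agent.J4H27.CY.Cnt
import Pool.Agent.J4H27.CY.Den

/-!
# The exceptional points of Vojta's inequality on the orbits of a translation: there is a bounded
number of them in each dyadic interval
-/

set_option autoImplicit false

open MvPolynomial NumberField Pool.Agent.TH954.X

namespace Pool.Agent.Results.MP_17a322_nt.TranslationOrbits

section

variable {K : Type} [Field K] {n β : ℕ}

/-- the points over `F` of the product `B` of the abelian varieties `A b` -/
abbrev Pts (A : Fin β → AbV K n) (F : Type) [Field F] [Algebra K F] : Type := ∀ b, (A b).Pt F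

/-- the coordinates of a point of `B` -/
def crds {A : Fin β → AbV K n} {F : Type} [Field F] [Algebra K F] (P : Pts A F) :
    Fin β → Fin n → F := fun b => (P b).1

/-- the coordinates of the point `(t, P)` of `ℙ × B`, with `ℙ` the projective space of dimension
`n - 1` -/
def full {A : Fin β → AbV K n} {F : Type} [Field F] [Algebra K F] (t : Fin n → F)
    (P : Pts A F) : Option (Fin β) → Fin n → F := fun o => Option.elim o t (crds P)

/-- the equations of a closed subscheme of `ℙ × B`: finitely many multihomogeneous forms `f i`, of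
multidegrees `δ i` -/
structure Eqs (K : Type) [Field K] (n β : ℕ) where
  s : ℕ
  f : Fin s → MvPolynomial (Option (Fin β) × Fin n) K
  δ : Fin s → Option (Fin β) → ℕ
  hom : ∀ i, MH (δ i) (f i)

/-- the point `(t, P)` of `ℙ × B` lies on the closed subset `X` -/
def On {A : Fin β → AbV K n} (X : Eqs K n β) {F : Type} [Field F] [Algebra K F]
    (t : Fin n → F) (P : Pts A F) : Prop := ∀ i, ev (X.f i) (full t P) = 0

/-- the sum of the numbers `dim` of the `A b`; it is at most the dimension of `B` -/
def dimB (A : Fin β → AbV K n) : ℕ := ∑ b, (A b).dim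

/-- the transcendence degree over `K` of the field generated by the coordinates of a point of `B` -/
noncomputable def trdegPt {A : Fin β → AbV K n} {F : Type} [Field F] [Algebra K F] (P : Pts A F) :
    Cardinal :=
  Algebra.trdeg K (IntermediateField.adjoin K
    (Set.range (fun p : Fin β × Fin n => crds P p.1 p.2)))

/-- the image in `B` of the closed subset `X ∩ W` has codimension at least `c` -/
def ImageCodim (A : Fin β → AbV K n) (X W : Eqs K n β) (c : ℕ) : Prop :=
  ∀ (F : Type) [Field F] [Algebra K F] (t : Fin n → F) (P : Pts A F), t ≠ 0 → On X t P →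
    On W t P → trdegPt P + (c : Cardinal) ≤ (dimB A : Cardinal)

/-- the subgroup `G` of `B(F)` is closed: it is defined by multihomogeneous equations over `F` -/
def IsClosedSubgroup (A : Fin β → AbV K n) (F : Type) [Field F] [Algebra K F]
    (G : AddSubgroup (Pts A F)) : Prop :=
  ∃ Φs : Set (MvPolynomial (Fin β × Fin n) F), (∀ Φ ∈ Φs, ∃ δ, MH δ Φ) ∧
    ∀ P, P ∈ G ↔ ∀ Φ ∈ Φs, ev Φ (crds P) = 0

/-- The abelian varieties `A b` are geometrically simple and pairwise not isogenous over the
algebraically closed extension fields `F` of `K`, in the following form: for all distinct indices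
`e 0, ..., e (γ - 1)`, a closed subgroup of the group of points over `F` of the product of the
`A (e j)` whose projection to each of the factors is infinite is the whole group. -/
def SimpleNonisogenous (A : Fin β → AbV K n) : Prop :=
  ∀ (F : Type) [Field F] [Algebra K F] [IsAlgClosed F] (γ : ℕ) (e : Fin γ ↪ Fin β)
    (G : AddSubgroup (Pts (fun j => A (e j)) F)), IsClosedSubgroup (fun j => A (e j)) F G →
    (∀ j, {Q : (A (e j)).Pt F | ∃ P ∈ G, P j = Q}.Infinite) → G = ⊤

/-- the points `Q + m P`, for integers `m ≥ 0`, are dense in `B` in the Zariski topology: a form over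
`K` that vanishes at all of them vanishes on `B` -/
def DenseOrbit (A : Fin β → AbV K n) (P Q : Pts A K) : Prop :=
  ∀ (Φ : MvPolynomial (Fin β × Fin n) K) (τ : Fin β → ℕ), MH τ Φ →
    (∀ m : ℕ, ev Φ (crds (Q + m • P)) = 0) →
      ∀ (F : Type) [Field F] [Algebra K F] (R : Pts A F), ev Φ (crds R) = 0

/-- the local height of `x` with respect to the subscheme `W`: minus the logarithm of
`max_i |f i (x)|_v / ∏_j |x_j|_v ^ (δ i j)`, with `|x_j|_v` the maximum of the absolute values of the
coordinates of `x_j` -/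
noncomputable def lambda (W : Eqs K n β) (x : Option (Fin β) → Fin n → K)
    (v : AbsoluteValue K ℝ) : ℝ :=
  -Real.log (⨆ i, v (ev (W.f i) x) / ∏ j, (⨆ c, v (x j c)) ^ W.δ i j)

variable [NumberField K]

/-- the height with respect to the subscheme `W`: the sum of the local heights over all places -/
noncomputable def heightW (W : Eqs K n β) (x : Option (Fin β) → Fin n → K) : ℝ :=
  ∑ w : InfinitePlace K, (w.mult : ℝ) * lambda W x w.val +
    ∑ᶠ v : FinitePlace K, lambda W x v.val

/-- the proximity function: the sum of the local heights over the places in `S = S1 ∪ S2` -/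
noncomputable def proximity (D : Eqs K n β) (S1 : Finset (InfinitePlace K))
    (S2 : Finset (FinitePlace K)) (x : Option (Fin β) → Fin n → K) : ℝ :=
  ∑ w ∈ S1, (w.mult : ℝ) * lambda D x w.val + ∑ v ∈ S2, lambda D x v.val

/-- the sum of the logarithmic heights of the components of a point of `B` -/
noncomputable def height {A : Fin β → AbV K n} (P : Pts A K) : ℝ :=
  ∑ b, Height.logHeight (crds P b)

/-- the exceptional points `P` of `B(K)`: there is a rational point `x = (t, P)` of `X` over `P` which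
is in `W` or in `D` or does not satisfy the inequality `h_W(x) + m_{S,D}(x) ≤ ε h(P)` -/
def Exceptions (A : Fin β → AbV K n) (X W D : Eqs K n β)
    (S1 : Finset (InfinitePlace K)) (S2 : Finset (FinitePlace K)) (ε : ℝ) : Set (Pts A K) :=
  {P | ∃ t : Fin n → K, t ≠ 0 ∧ On X t P ∧ (On W t P ∨ On D t P ∨
    ε * height P < heightW W (full t P) + proximity D S1 S2 (full t P))}

end

/-- Let `B = ∏ A b` be a product of abelian varieties over the number field `K`, of positive
dimension, `P, Q ∈ B(K)` such that the points `Q + m P`, `m ≥ 0`, are Zariski dense in `B`, `X` a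
closed subset of `ℙ × B`, `W` and `D` closed subschemes of `X` whose images in `B` have codimension at
least two and at least one, `S` a finite set of places and `ε > 0`. Call `m` exceptional if some
rational point `x` of `X` over `Q + m P` is in `W` or in `D` or violates
`h_W(x) + m_{S,D}(x) ≤ ε h(Q + m P)`. Then there is a number `C` such that, for all `N`, at most `C`
integers `m` with `N ≤ m ≤ 2 N` are exceptional; hence at most `C log N` integers `m ≤ N` are
exceptional, for `N ≥ 2`.

If the `A b` are geometrically simple and pairwise not isogenous and all components of `P` are of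
infinite order, the points `Q + m P` are Zariski dense. -/
theorem result :
    (∀ (K : Type) [Field K] [NumberField K] (n β : ℕ) (A : Fin β → AbV K n), 0 < dimB A →
      ∀ P Q : Pts A K, DenseOrbit A P Q →
      ∀ X W D : Eqs K n β, ImageCodim A X W 2 → ImageCodim A X D 1 →
      ∀ (S1 : Finset (InfinitePlace K)) (S2 : Finset (FinitePlace K)) (ε : ℝ), 0 < ε →
        ∃ C : ℝ,
          (∀ N : ℕ, (({m : ℕ | N ≤ m ∧ m ≤ 2 * N ∧
            Q + m • P ∈ Exceptions A X W D S1 S2 ε}.ncard : ℕ) : ℝ) ≤ C) ∧
          ∀ N : ℕ, 2 ≤ N → (({m : ℕ | m ≤ N ∧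
            Q + m • P ∈ Exceptions A X W D S1 S2 ε}.ncard : ℕ) : ℝ) ≤ C * Real.log N) ∧
    ∀ (K : Type) [Field K] (n β : ℕ) (A : Fin β → AbV K n), SimpleNonisogenous A →
      ∀ P Q : Pts A K, (∀ b, ∀ m : ℕ, 0 < m → m • P b ≠ 0) → DenseOrbit A P Q := by
  classical
  constructor
  · intro K _ _ n β A hdim P Q hPQ X W D hcW hcD S1 S2 ε hε
    have hd : ∀ (Φ : MvPolynomial (Fin β × Fin n) K) (δ : Fin β → ℕ), MH δ Φ →
        (∀ m : ℕ, ev Φ (Pool.Agent.TH954.Z.vc (Q + m • P)) = 0) →
          ¬ Pool.Agent.TH954.Z.NZ A Φ := by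
      rintro Φ δ hΦ hz ⟨F, _, _, R, hR⟩
      exact hR (hPQ Φ δ hΦ hz F R)
    let Γ : AddSubgroup (Pts A K) := AddSubgroup.closure {P, Q}
    have hFG : Γ.FG := ⟨{P, Q}, by simp [Γ]⟩
    have hmem : ∀ m : ℕ, Q + m • P ∈ Γ := fun m =>
      Γ.add_mem (AddSubgroup.subset_closure (by simp))
        (Γ.nsmul_mem (AddSubgroup.subset_closure (by simp)) m)
    obtain ⟨N0, d, hN⟩ := Pool.Agent.J4H27.AB.dyadic A hdim Γ hFG X.f
      (fun i => ⟨X.δ i, X.hom i⟩) W.f W.δ W.hom D.f D.δ D.hom
      (fun F _ _ t P ht h1 h2 => hcW F t P ht h1 h2)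
      (fun F _ _ t P ht h1 h2 => hcD F t P ht h1 h2) S1 S2 ε hε
    obtain ⟨C, hC⟩ := Pool.Agent.J4H27.CY.orbit_count A hdim P Q hd
      {R | R ∈ Γ ∧ R ∈ Exceptions A X W D S1 S2 ε} N0 d
      (fun T => (hN T).sub (fun R hR => ⟨⟨⟨hR.1.1, hR.2.2⟩, hR.1.2⟩, hR.2.1⟩))
    have hset : ∀ N : ℕ, {m : ℕ | N ≤ m ∧ m ≤ 2 * N ∧
        Q + m • P ∈ Exceptions A X W D S1 S2 ε} = {m | N ≤ m ∧ m ≤ 2 * N ∧
        m ∈ {m : ℕ | Q + m • P ∈ {R | R ∈ Γ ∧ R ∈ Exceptions A X W D S1 S2 ε}}} := by
      intro N
      ext m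
      exact ⟨fun h => ⟨h.1, h.2.1, hmem m, h.2.2⟩, fun h => ⟨h.1, h.2.1, h.2.2.2⟩⟩
    have hset' : ∀ N : ℕ, {m : ℕ | m ≤ N ∧ Q + m • P ∈ Exceptions A X W D S1 S2 ε} =
        {m | m ≤ N ∧
        m ∈ {m : ℕ | Q + m • P ∈ {R | R ∈ Γ ∧ R ∈ Exceptions A X W D S1 S2 ε}}} := by
      intro N
      ext m
      exact ⟨fun h => ⟨h.1, hmem m, h.2⟩, fun h => ⟨h.1, h.2.2⟩⟩
    have hl2 : 0 < Real.log 2 := Real.log_pos (by norm_num)
    have hl2' : Real.log 2 ≤ 1 := by
      have h1 := Real.log_two_lt_d9
      linarith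
    refine ⟨(2 + 2 * C) / Real.log 2, fun N => ?_, fun N hN2 => ?_⟩
    · rw [hset]
      have h1 : (({m | N ≤ m ∧ m ≤ 2 * N ∧
        m ∈ {m : ℕ | Q + m • P ∈ {R | R ∈ Γ ∧ R ∈ Exceptions A X W D S1 S2 ε}}}.ncard : ℕ) : ℝ) ≤
          C := by exact_mod_cast hC N
      refine h1.trans ?_
      rw [le_div_iff₀ hl2]
      have h2 : (0 : ℝ) ≤ C := Nat.cast_nonneg _
      nlinarith
    · rw [hset']
      exact Pool.Agent.J4H27.CY.log_count' _ C hC N hN2
  · intro K _ n β A hA P Q hP Φ τ hΦ hz F _ _ R
    by_contra hR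
    exact Pool.Agent.J4H27.CY.dense_of_indep (A := A) hA P Q hP Φ τ hΦ hz
      ⟨F, inferInstance, inferInstance, R, hR⟩

end Pool.Agent.Results.MP_17a322_nt.TranslationOrbits
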